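import Mathlib
set_option autoImplicit false
open Polynomial Matrix
open scoped Matrix.Norms.L2Operator

namespace Pool.Agent.Helper773.SpecVar

/-- Spectral distance of two lists of `n` complex numbers: the minimum over all permutations
`σ` of the maximum over `k` of `|α_k - β_(σ k)|`. -/
noncomputable def spDist {n : ℕ} (α β : Fin n → ℂ) : ℝ :=
  ⨅ σ : Equiv.Perm (Fin n), ⨆ k : Fin n, ‖α k - β (σ k)‖

/-- `α` lists the eigenvalues of `A` with multiplicity. -/
def IsEigList {n : ℕ} (A : Matrix (Fin n) (Fin n) ℂ) (α : Fin n → ℂ) : Prop :=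
  A.charpoly = ∏ k, (X - C (α k))

/-- There are normal `n × n` matrices `A ≠ B` with `sd(A,B) ≥ c ‖A - B‖`
(operator norm). -/
def HasPair (n : ℕ) (c : ℝ) : Prop :=
  ∃ A B : Matrix (Fin n) (Fin n) ℂ, A * Aᴴ = Aᴴ * A ∧ B * Bᴴ = Bᴴ * B ∧ A ≠ B ∧
    ∃ α β : Fin n → ℂ, IsEigList A α ∧ IsEigList B β ∧ c * ‖A - B‖ ≤ spDist α β

end Pool.Agent.Helper773.SpecVar
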