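import Mathlib
import Pool.Agent.Helper773.SpecVar.Defs
set_option autoImplicit false
open Polynomial Matrix
open scoped Matrix.Norms.L2Operator

namespace Pool.Agent.Helper773.SpecVar

theorem normal_of {n : ℕ} (U : Matrix (Fin n) (Fin n) ℂ) (hU : U * Uᴴ = 1) (α : Fin n → ℂ) :
    (U * diagonal α * Uᴴ) * (U * diagonal α * Uᴴ)ᴴ =
      (U * diagonal α * Uᴴ)ᴴ * (U * diagonal α * Uᴴ) := by
  have hU' : Uᴴ * U = 1 := mul_eq_one_comm.1 hU
  have e : (U * diagonal α * Uᴴ)ᴴ = U * diagonal (star α) * Uᴴ := by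
    rw [conjTranspose_mul, conjTranspose_mul, conjTranspose_conjTranspose, diagonal_conjTranspose,
      Matrix.mul_assoc]
  rw [e]
  have h : ∀ x y : Fin n → ℂ, (U * diagonal x * Uᴴ) * (U * diagonal y * Uᴴ) =
      U * diagonal (fun i => x i * y i) * Uᴴ := by
    intro x y
    calc (U * diagonal x * Uᴴ) * (U * diagonal y * Uᴴ)
        = U * diagonal x * (Uᴴ * U) * diagonal y * Uᴴ := by simp only [Matrix.mul_assoc]
      _ = U * (diagonal x * diagonal y) * Uᴴ := by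
          rw [hU', Matrix.mul_one, Matrix.mul_assoc U]
      _ = _ := by rw [diagonal_mul_diagonal]
  rw [h, h]
  congr 3
  funext i
  exact mul_comm _ _

theorem charpoly_of {n : ℕ} (U : Matrix (Fin n) (Fin n) ℂ) (hU : U * Uᴴ = 1) (α : Fin n → ℂ) :
    (U * diagonal α * Uᴴ).charpoly = ∏ k, (X - C (α k)) := by
  have hU' : Uᴴ * U = 1 := mul_eq_one_comm.1 hU
  have h := Matrix.charpoly_units_conj (⟨U, Uᴴ, hU, hU'⟩ : (Matrix (Fin n) (Fin n) ℂ)ˣ) (diagonal α)
  have hinv : U⁻¹ = Uᴴ := Matrix.inv_eq_right_inv hU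
  simp only [hinv] at h
  calc (U * diagonal α * Uᴴ).charpoly = (diagonal α).charpoly := h
    _ = ∏ k, (X - C (α k)) := charpoly_diagonal α

theorem norm_bound {n : ℕ} (T L : Matrix (Fin n) (Fin n) ℂ) (μ ρ : ℝ) (hρ : 0 ≤ ρ)
    (h : ∀ i j, ‖((μ : ℂ) • (1 : Matrix (Fin n) (Fin n) ℂ) - Lᴴ * L - Tᴴ * T) i j‖ ≤ ρ) :
    ‖T‖ ≤ Real.sqrt (μ + n * ρ) := by
  have key : ∀ x : Fin n → ℂ, ∑ i, ‖(T *ᵥ x) i‖ ^ 2 ≤ (μ + n * ρ) * ∑ i, ‖x i‖ ^ 2 := by
    intro x
    set R : Matrix (Fin n) (Fin n) ℂ := (μ : ℂ) • (1 : Matrix (Fin n) (Fin n) ℂ) - Lᴴ * L - Tᴴ * T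
      with hR
    have hq : ∀ M : Matrix (Fin n) (Fin n) ℂ,
        star x ⬝ᵥ ((Mᴴ * M) *ᵥ x) = ((∑ i, ‖(M *ᵥ x) i‖ ^ 2 : ℝ) : ℂ) := by
      intro M
      rw [← Matrix.mulVec_mulVec, Matrix.dotProduct_mulVec, ← Matrix.star_mulVec]
      simp only [dotProduct, Pi.star_apply]
      push_cast
      apply Finset.sum_congr rfl
      intro i _
      rw [RCLike.star_def, Complex.conj_mul']
    have h1 : star x ⬝ᵥ (((μ : ℂ) • (1 : Matrix (Fin n) (Fin n) ℂ)) *ᵥ x) =
        ((μ * ∑ i, ‖x i‖ ^ 2 : ℝ) : ℂ) := by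
      rw [Matrix.smul_mulVec, Matrix.one_mulVec, dotProduct_smul]
      simp only [dotProduct, Pi.star_apply, smul_eq_mul]
      push_cast
      congr 1
      apply Finset.sum_congr rfl
      intro i _
      rw [RCLike.star_def, Complex.conj_mul']
    have h2 : star x ⬝ᵥ (R *ᵥ x) = ((μ * ∑ i, ‖x i‖ ^ 2 : ℝ) : ℂ) -
        ((∑ i, ‖(L *ᵥ x) i‖ ^ 2 : ℝ) : ℂ) - ((∑ i, ‖(T *ᵥ x) i‖ ^ 2 : ℝ) : ℂ) := by
      rw [hR, Matrix.sub_mulVec, Matrix.sub_mulVec, dotProduct_sub, dotProduct_sub, h1, hq, hq]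
    have h3 : ‖star x ⬝ᵥ (R *ᵥ x)‖ ≤ n * ρ * ∑ i, ‖x i‖ ^ 2 := by
      have h4 : ‖star x ⬝ᵥ (R *ᵥ x)‖ ≤ ρ * (∑ i, ‖x i‖) ^ 2 := by
        simp only [dotProduct, Matrix.mulVec, Pi.star_apply]
        refine (norm_sum_le _ _).trans ?_
        rw [pow_two, Finset.sum_mul, Finset.mul_sum]
        apply Finset.sum_le_sum
        intro i _
        rw [norm_mul, norm_star]
        have h5 : ‖∑ j, R i j * x j‖ ≤ ρ * ∑ j, ‖x j‖ := by
          refine (norm_sum_le _ _).trans ?_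
          rw [Finset.mul_sum]
          apply Finset.sum_le_sum
          intro j _
          rw [norm_mul]
          exact mul_le_mul_of_nonneg_right (h i j) (norm_nonneg _)
        calc ‖x i‖ * ‖∑ j, R i j * x j‖ ≤ ‖x i‖ * (ρ * ∑ j, ‖x j‖) :=
              mul_le_mul_of_nonneg_left h5 (norm_nonneg _)
          _ = ρ * (‖x i‖ * ∑ j, ‖x j‖) := by ring
      have h6 : (∑ i, ‖x i‖) ^ 2 ≤ n * ∑ i, ‖x i‖ ^ 2 := by
        have := sq_sum_le_card_mul_sum_sq (s := (Finset.univ : Finset (Fin n)))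
          (f := fun i => ‖x i‖)
        simpa using this
      calc ‖star x ⬝ᵥ (R *ᵥ x)‖ ≤ ρ * (∑ i, ‖x i‖) ^ 2 := h4
        _ ≤ ρ * (n * ∑ i, ‖x i‖ ^ 2) := mul_le_mul_of_nonneg_left h6 hρ
        _ = _ := by ring
    rw [h2] at h3
    have h7 : ‖(((μ * ∑ i, ‖x i‖ ^ 2 : ℝ) : ℂ) -
        ((∑ i, ‖(L *ᵥ x) i‖ ^ 2 : ℝ) : ℂ) - ((∑ i, ‖(T *ᵥ x) i‖ ^ 2 : ℝ) : ℂ))‖ =
        |μ * ∑ i, ‖x i‖ ^ 2 - ∑ i, ‖(L *ᵥ x) i‖ ^ 2 - ∑ i, ‖(T *ᵥ x) i‖ ^ 2| := by
      rw [← Complex.ofReal_sub, ← Complex.ofReal_sub, Complex.norm_real, Real.norm_eq_abs]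
    rw [h7] at h3
    have h8 : 0 ≤ ∑ i, ‖(L *ᵥ x) i‖ ^ 2 := Finset.sum_nonneg fun i _ => by positivity
    have h9 := (abs_le.1 h3).1
    have h10 : (μ + n * ρ) * ∑ i, ‖x i‖ ^ 2 = μ * ∑ i, ‖x i‖ ^ 2 + n * ρ * ∑ i, ‖x i‖ ^ 2 := by
      ring
    rw [h10]
    linarith
  rw [Matrix.l2_opNorm_def]
  apply ContinuousLinearMap.opNorm_le_bound _ (Real.sqrt_nonneg _)
  intro x
  have hx := key x.ofLp
  have e1 : ‖(LinearMap.toContinuousLinearMap (Matrix.toEuclideanLin T)) x‖ =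
      Real.sqrt (∑ i, ‖(T *ᵥ x.ofLp) i‖ ^ 2) := by
    rw [EuclideanSpace.norm_eq]
    rfl
  have e2 : ‖x‖ = Real.sqrt (∑ i, ‖x.ofLp i‖ ^ 2) := EuclideanSpace.norm_eq _
  have e3 : (toEuclideanLin (𝕜 := ℂ) (m := Fin n) (n := Fin n) ≪≫ₗ LinearMap.toContinuousLinearMap) T x =
      (LinearMap.toContinuousLinearMap (Matrix.toEuclideanLin T)) x := rfl
  rw [e3, e1, e2, ← Real.sqrt_mul' _ (Finset.sum_nonneg fun i _ => by positivity)]
  exact Real.sqrt_le_sqrt hx

/-- padding of a matrix by a scalar block -/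
noncomputable def pad {n : ℕ} (k : ℕ) (z : ℂ) (A : Matrix (Fin n) (Fin n) ℂ) :
    Matrix (Fin (n + k)) (Fin (n + k)) ℂ :=
  Matrix.reindex finSumFinEquiv finSumFinEquiv
    (fromBlocks A 0 0 (z • (1 : Matrix (Fin k) (Fin k) ℂ)))

theorem pad_normal {n : ℕ} (k : ℕ) (z : ℂ) (A : Matrix (Fin n) (Fin n) ℂ)
    (hA : A * Aᴴ = Aᴴ * A) : pad k z A * (pad k z A)ᴴ = (pad k z A)ᴴ * pad k z A := by
  unfold pad
  rw [Matrix.reindex_apply, Matrix.conjTranspose_submatrix, Matrix.submatrix_mul_equiv,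
    Matrix.submatrix_mul_equiv, fromBlocks_conjTranspose, fromBlocks_multiply, fromBlocks_multiply]
  simp only [hA, conjTranspose_zero, Matrix.mul_zero, Matrix.zero_mul, add_zero, zero_add,
    conjTranspose_smul, conjTranspose_one, Matrix.mul_smul,
    Matrix.mul_one, smul_zero]
  rw [smul_comm]

theorem pad_charpoly {n : ℕ} (k : ℕ) (z : ℂ) (A : Matrix (Fin n) (Fin n) ℂ) (α : Fin n → ℂ)
    (hA : IsEigList A α) : IsEigList (pad k z A) (Fin.append α (fun _ => z)) := by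
  unfold IsEigList pad at *
  rw [Matrix.charpoly_reindex, Matrix.charpoly_fromBlocks_zero₁₂, hA, Fin.prod_univ_add]
  congr 1
  · apply Finset.prod_congr rfl
    intro i _
    rw [Fin.append_left]
  · have : z • (1 : Matrix (Fin k) (Fin k) ℂ) = diagonal (fun _ => z) := by
      rw [Matrix.smul_one_eq_diagonal]
    rw [this, charpoly_diagonal]
    apply Finset.prod_congr rfl
    intro i _
    rw [Fin.append_right]

theorem pad_norm {n : ℕ} (k : ℕ) (z : ℂ) (A B : Matrix (Fin n) (Fin n) ℂ) :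
    ‖pad k z A - pad k z B‖ ≤ ‖A - B‖ := by
  set P : Matrix (Fin (n + k)) (Fin n) ℂ := Matrix.of fun i j => if i = Fin.castAdd k j then 1 else 0
    with hP
  have hPP : Pᴴ * P = 1 := by
    ext i j
    rw [Matrix.mul_apply, Matrix.one_apply]
    simp only [hP, conjTranspose_apply, Matrix.of_apply]
    rw [Finset.sum_eq_single (Fin.castAdd k i)]
    · by_cases h : i = j
      · subst h; simp
      · have : Fin.castAdd k i ≠ Fin.castAdd k j := fun h' => h (Fin.castAdd_injective n k h')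
        simp [h, this]
    · intro b _ hb
      simp [hb]
    · simp
  have hPn : ‖P‖ ≤ 1 := by
    have h1 := Matrix.l2_opNorm_conjTranspose_mul_self P
    rw [hPP] at h1
    have h2 : ‖(1 : Matrix (Fin n) (Fin n) ℂ)‖ ≤ 1 := by
      rw [← diagonal_one, Matrix.l2_opNorm_diagonal]
      exact (pi_norm_le_iff_of_nonneg zero_le_one).2 fun i => by simp
    rw [h1] at h2
    nlinarith [norm_nonneg P]
  have hne : ∀ (i : Fin k) (j : Fin n), Fin.natAdd n i ≠ Fin.castAdd k j := by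
    intro i j h
    have := congrArg Fin.val h
    simp at this
    omega
  have hP1 : ∀ (M : Matrix (Fin n) (Fin n) ℂ) (i l : Fin n), (P * M) (Fin.castAdd k i) l = M i l := by
    intro M i l
    rw [Matrix.mul_apply, Finset.sum_eq_single i]
    · simp [hP]
    · intro b _ hb
      have : Fin.castAdd k i ≠ Fin.castAdd k b := fun h' => hb (Fin.castAdd_injective n k h').symm
      simp [hP, this]
    · simp
  have hP2 : ∀ (M : Matrix (Fin n) (Fin n) ℂ) (i : Fin k) (l : Fin n),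
      (P * M) (Fin.natAdd n i) l = 0 := by
    intro M i l
    rw [Matrix.mul_apply]
    apply Finset.sum_eq_zero
    intro b _
    simp [hP, hne]
  have hP3 : ∀ (M : Matrix (Fin (n + k)) (Fin n) ℂ) (i : Fin (n + k)) (l : Fin n),
      (M * Pᴴ) i (Fin.castAdd k l) = M i l := by
    intro M i l
    rw [Matrix.mul_apply, Finset.sum_eq_single l]
    · simp [hP]
    · intro b _ hb
      have : Fin.castAdd k l ≠ Fin.castAdd k b := fun h' => hb (Fin.castAdd_injective n k h').symm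
      simp [hP, this]
    · simp
  have hP4 : ∀ (M : Matrix (Fin (n + k)) (Fin n) ℂ) (i : Fin (n + k)) (l : Fin k),
      (M * Pᴴ) i (Fin.natAdd n l) = 0 := by
    intro M i l
    rw [Matrix.mul_apply]
    apply Finset.sum_eq_zero
    intro b _
    simp [hP, hne]
  have e : pad k z A - pad k z B = P * (A - B) * Pᴴ := by
    ext i j
    refine Fin.addCases (fun i => ?_) (fun i => ?_) i <;>
    refine Fin.addCases (fun j => ?_) (fun j => ?_) j
    · rw [hP3, hP1]
      simp [pad, Matrix.sub_apply]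
    · rw [hP4]
      simp [pad, Matrix.sub_apply]
    · rw [hP3, hP2]
      simp [pad, Matrix.sub_apply]
    · rw [hP4]
      simp [pad, Matrix.sub_apply]
  rw [e]
  calc ‖P * (A - B) * Pᴴ‖ ≤ ‖P * (A - B)‖ * ‖Pᴴ‖ := Matrix.l2_opNorm_mul _ _
    _ ≤ (‖P‖ * ‖A - B‖) * ‖Pᴴ‖ := mul_le_mul_of_nonneg_right (Matrix.l2_opNorm_mul _ _)
        (norm_nonneg _)
    _ ≤ (1 * ‖A - B‖) * 1 := by
        rw [Matrix.l2_opNorm_conjTranspose]
        gcongr
    _ = ‖A - B‖ := by ring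

theorem match_of {n : ℕ} (k : ℕ) (α β : Fin n → ℂ) (z : ℂ) (KA KB : Finset (Fin n))
    (hcard : n + 1 ≤ KA.card + KB.card) (h : ∀ i ∈ KA, ∀ j ∈ KB, 1 ≤ ‖α i - β j‖)
    (hz : ∀ j ∈ KB, 1 ≤ ‖z - β j‖) :
    1 ≤ spDist (Fin.append α (fun _ : Fin k => z)) (Fin.append β (fun _ : Fin k => z)) := by
  unfold spDist
  apply le_ciInf
  intro σ
  have hex : ∃ i : Fin (n + k), 1 ≤ ‖Fin.append α (fun _ : Fin k => z) i -
      Fin.append β (fun _ : Fin k => z) (σ i)‖ := by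
    by_contra hcon
    push Not at hcon
    set I : Finset (Fin (n + k)) := KA.map (Fin.castAddEmb k) ∪ Finset.univ.map (Fin.natAddEmb n)
      with hI
    set J : Finset (Fin (n + k)) := KB.map (Fin.castAddEmb k) with hJ
    have hIc : I.card = KA.card + k := by
      rw [hI, Finset.card_union_of_disjoint, Finset.card_map, Finset.card_map, Finset.card_univ,
        Fintype.card_fin]
      rw [Finset.disjoint_left]
      intro a ha hb
      simp only [Finset.mem_map, Fin.castAddEmb_apply, Fin.natAddEmb_apply, Finset.mem_univ,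
        true_and] at ha hb
      obtain ⟨x, -, rfl⟩ := ha
      obtain ⟨y, hy⟩ := hb
      have := congrArg Fin.val hy
      simp at this
      omega
    have hJc : J.card = KB.card := by rw [hJ, Finset.card_map]
    have hdis : Disjoint (I.map σ.toEmbedding) J := by
      rw [Finset.disjoint_left]
      intro a ha hb
      simp only [Finset.mem_map, Equiv.coe_toEmbedding] at ha
      obtain ⟨x, hx, rfl⟩ := ha
      simp only [hJ, Finset.mem_map, Fin.castAddEmb_apply] at hb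
      obtain ⟨j, hj, hj'⟩ := hb
      have hc := hcon x
      rw [← hj', Fin.append_left] at hc
      simp only [hI, Finset.mem_union, Finset.mem_map, Fin.castAddEmb_apply, Fin.natAddEmb_apply,
        Finset.mem_univ, true_and] at hx
      rcases hx with ⟨i, hi, rfl⟩ | ⟨i, rfl⟩
      · rw [Fin.append_left] at hc
        exact absurd (h i hi j hj) (not_le.2 hc)
      · rw [Fin.append_right] at hc
        exact absurd (hz j hj) (not_le.2 hc)
    have h1 := Finset.card_union_of_disjoint hdis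
    have h2 := Finset.card_le_univ (I.map σ.toEmbedding ∪ J)
    rw [h1, Finset.card_map, hIc, hJc, Fintype.card_fin] at h2
    omega
  obtain ⟨i, hi⟩ := hex
  exact hi.trans (le_ciSup (f := fun i => ‖Fin.append α (fun _ : Fin k => z) i -
      Fin.append β (fun _ : Fin k => z) (σ i)‖) (Set.finite_range _).bddAbove i)

/-- soundness of the integer certificate -/
theorem sound {n : ℕ} (WA WB L M : Matrix (Fin n) (Fin n) GaussianInt) (a b : Fin n → GaussianInt)
    (N q s m2 r0 : ℕ) (z : GaussianInt) (KA KB : Finset (Fin n))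
    (hN : 0 < N) (hq : 0 < q) (hs : 0 < s)
    (h1 : ∀ i j, (WA * WAᴴ) i j = if i = j then (N : GaussianInt) else 0)
    (h2 : ∀ i j, (WB * WBᴴ) i j = if i = j then (N : GaussianInt) else 0)
    (h3' : ∀ i j, (M i j).re = ((WA * (diagonal a * WAᴴ)) i j - (WB * (diagonal b * WBᴴ)) i j).re ∧
      (M i j).im = ((WA * (diagonal a * WAᴴ)) i j - (WB * (diagonal b * WBᴴ)) i j).im)
    (h4 : ∀ i j, |((if i = j then ((m2 * (N * q) ^ 2 : ℕ) : GaussianInt) else 0) -
        (((N * q) ^ 2 : ℕ) : GaussianInt) * (Lᴴ * L) i j -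
        ((s ^ 2 : ℕ) : GaussianInt) * (Mᴴ * M) i j).re| ≤ ((r0 * (N * q) ^ 2 : ℕ) : ℤ) ∧
      |((if i = j then ((m2 * (N * q) ^ 2 : ℕ) : GaussianInt) else 0) -
        (((N * q) ^ 2 : ℕ) : GaussianInt) * (Lᴴ * L) i j -
        ((s ^ 2 : ℕ) : GaussianInt) * (Mᴴ * M) i j).im| ≤ ((r0 * (N * q) ^ 2 : ℕ) : ℤ))
    (hcard : n + 1 ≤ KA.card + KB.card)
    (h5 : ∀ i ∈ KA, ∀ j ∈ KB, ((q ^ 2 : ℕ) : ℤ) ≤ (a i - b j).norm)
    (h6 : ∀ j ∈ KB, ((q ^ 2 : ℕ) : ℤ) ≤ (z - b j).norm)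
    (h8' : ∃ i j, (M i j).re ≠ 0)
    (c : ℝ) (hc : 0 ≤ c) (h7 : ((m2 : ℝ) + 2 * n * r0) * c ^ 2 ≤ (s : ℝ) ^ 2) :
    ∀ k, HasPair (n + k) c := by
  intro k
  have h3 : ∀ i j, M i j = (WA * (diagonal a * WAᴴ)) i j - (WB * (diagonal b * WBᴴ)) i j :=
    fun i j => Zsqrtd.ext (h3' i j).1 (h3' i j).2
  have h8 : ∃ i j, M i j ≠ 0 := by
    obtain ⟨i, j, h⟩ := h8'
    exact ⟨i, j, fun h0 => h (by rw [h0]; rfl)⟩
  have hNR : (0 : ℝ) < N := by exact_mod_cast hN
  have hqR : (0 : ℝ) < q := by exact_mod_cast hq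
  have hsR : (0 : ℝ) < s := by exact_mod_cast hs
  set f := GaussianInt.toComplex with hf
  have hstar : Function.Semiconj f star star := by
    intro x
    rw [hf, GaussianInt.toComplex_star]
    rfl
  set w : ℝ := (Real.sqrt N)⁻¹ with hw
  have hww : w * w = (N : ℝ)⁻¹ := by
    rw [hw, ← mul_inv, Real.mul_self_sqrt hNR.le]
  have hU : ∀ W : Matrix (Fin n) (Fin n) GaussianInt,
      (∀ i j, (W * Wᴴ) i j = if i = j then (N : GaussianInt) else 0) →
      ((w : ℂ) • W.map f) * ((w : ℂ) • W.map f)ᴴ = 1 := by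
    intro W hW
    have e : W * Wᴴ = diagonal fun _ => (N : GaussianInt) := by
      ext i j
      · rw [hW i j, diagonal_apply]
      · rw [hW i j, diagonal_apply]
    have e2 : W.map f * (W.map f)ᴴ = diagonal fun _ => (N : ℂ) := by
      rw [← conjTranspose_map f hstar, ← Matrix.map_mul, e, Matrix.diagonal_map (map_zero f)]
      congr 1
      funext i
      exact map_natCast f N
    rw [conjTranspose_smul, Matrix.smul_mul, Matrix.mul_smul, smul_smul, e2]
    have e3 : (w : ℂ) * star (w : ℂ) = (N : ℂ)⁻¹ := by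
      rw [RCLike.star_def, Complex.conj_ofReal, ← Complex.ofReal_mul, hww]
      push_cast
      rfl
    rw [e3, ← diagonal_smul]
    rw [← diagonal_one]
    congr 1
    funext i
    have : (N : ℂ) ≠ 0 := by exact_mod_cast hN.ne'
    simp [this]
  have hAeq : ∀ (W : Matrix (Fin n) (Fin n) GaussianInt) (x : Fin n → GaussianInt),
      ((w : ℂ) • W.map f) * diagonal (fun i => f (x i) / q) * ((w : ℂ) • W.map f)ᴴ =
      (((N : ℂ) * q)⁻¹) • (W * (diagonal x * Wᴴ)).map f := by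
    intro W x
    have e1 : diagonal (fun i => f (x i) / (q : ℂ)) = (q : ℂ)⁻¹ • (diagonal x).map f := by
      rw [Matrix.diagonal_map (map_zero f), ← diagonal_smul]
      congr 1
      funext i
      simp only [Pi.smul_apply, smul_eq_mul]
      rw [div_eq_inv_mul]
    rw [e1, Matrix.map_mul, Matrix.map_mul, conjTranspose_map f hstar, conjTranspose_smul]
    simp only [Matrix.smul_mul, Matrix.mul_smul, smul_smul]
    rw [Matrix.mul_assoc]
    congr 1
    have e3 : (w : ℂ) * (w : ℂ) = (N : ℂ)⁻¹ := by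
      rw [← Complex.ofReal_mul, hww]
      push_cast
      rfl
    rw [RCLike.star_def, Complex.conj_ofReal, mul_inv, ← e3]
    ring
  set α : Fin n → ℂ := fun i => f (a i) / q with hα
  set β : Fin n → ℂ := fun i => f (b i) / q with hβ
  set A := ((w : ℂ) • WA.map f) * diagonal α * ((w : ℂ) • WA.map f)ᴴ with hA
  set B := ((w : ℂ) • WB.map f) * diagonal β * ((w : ℂ) • WB.map f)ᴴ with hB
  have hT : A - B = (((N : ℂ) * q)⁻¹) • M.map f := by
    rw [hA, hB, hAeq, hAeq, ← smul_sub]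
    congr 1
    ext i j
    simp only [Matrix.sub_apply, Matrix.map_apply, h3 i j, map_sub]
  have hnorm : ‖A - B‖ ≤ Real.sqrt ((m2 : ℝ) / s ^ 2 + n * (2 * r0 / s ^ 2)) := by
    apply norm_bound (A - B) (((s : ℂ)⁻¹) • L.map f) _ _ (by positivity)
    intro i j
    have hmap : ∀ X : Matrix (Fin n) (Fin n) GaussianInt, (X.map f)ᴴ * X.map f = (Xᴴ * X).map f := by
      intro X
      rw [Matrix.map_mul, conjTranspose_map f hstar]
    set E : GaussianInt := (if i = j then ((m2 * (N * q) ^ 2 : ℕ) : GaussianInt) else 0) -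
        (((N * q) ^ 2 : ℕ) : GaussianInt) * (Lᴴ * L) i j -
        ((s ^ 2 : ℕ) : GaussianInt) * (Mᴴ * M) i j with hE
    have hNc : (N : ℂ) ≠ 0 := by exact_mod_cast hN.ne'
    have hqc : (q : ℂ) ≠ 0 := by exact_mod_cast hq.ne'
    have hsc : (s : ℂ) ≠ 0 := by exact_mod_cast hs.ne'
    have e1 : (((((m2 : ℝ) / s ^ 2 : ℝ) : ℂ) • (1 : Matrix (Fin n) (Fin n) ℂ) -
        (((s : ℂ)⁻¹) • L.map f)ᴴ * (((s : ℂ)⁻¹) • L.map f) - (A - B)ᴴ * (A - B)) i j) =
        (((s : ℂ) ^ 2 * ((N : ℂ) * q) ^ 2)⁻¹) * f E := by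
      rw [hT, conjTranspose_smul, conjTranspose_smul, Matrix.smul_mul, Matrix.mul_smul,
        Matrix.smul_mul, Matrix.mul_smul, smul_smul, smul_smul, hmap, hmap]
      simp only [Matrix.sub_apply, Matrix.smul_apply, Matrix.map_apply, smul_eq_mul,
        Matrix.one_apply, hE, map_sub, map_mul, map_natCast, star_inv₀, star_mul', star_natCast,
        apply_ite f, map_zero]
      push_cast
      by_cases hij : i = j
      · simp only [hij, if_true]
        field_simp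
      · simp only [hij, if_false]
        field_simp
        ring
    rw [e1, norm_mul]
    have e2 : ‖f E‖ ≤ 2 * (r0 * ((N : ℝ) * q) ^ 2) := by
      have g1 := (h4 i j).1
      have g2 := (h4 i j).2
      rw [← hE] at g1 g2
      have g3 : |(f E).re| ≤ r0 * ((N : ℝ) * q) ^ 2 := by
        rw [hf, ← GaussianInt.intCast_re, ← Int.cast_abs]
        exact_mod_cast g1
      have g4 : |(f E).im| ≤ r0 * ((N : ℝ) * q) ^ 2 := by
        rw [hf, ← GaussianInt.intCast_im, ← Int.cast_abs]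
        exact_mod_cast g2
      have := Complex.norm_le_abs_re_add_abs_im (f E)
      linarith
    have e3 : ‖(((s : ℂ) ^ 2 * ((N : ℂ) * q) ^ 2)⁻¹)‖ = ((s : ℝ) ^ 2 * ((N : ℝ) * q) ^ 2)⁻¹ := by
      rw [norm_inv, norm_mul, norm_pow, norm_pow, norm_mul, Complex.norm_natCast,
        Complex.norm_natCast, Complex.norm_natCast]
    rw [e3]
    calc ((s : ℝ) ^ 2 * ((N : ℝ) * q) ^ 2)⁻¹ * ‖f E‖
        ≤ ((s : ℝ) ^ 2 * ((N : ℝ) * q) ^ 2)⁻¹ * (2 * (r0 * ((N : ℝ) * q) ^ 2)) :=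
          mul_le_mul_of_nonneg_left e2 (by positivity)
      _ = 2 * r0 / s ^ 2 := by field_simp
  have hcn : c * ‖A - B‖ ≤ 1 := by
    have g1 : c * ‖A - B‖ ≤ c * Real.sqrt ((m2 : ℝ) / s ^ 2 + n * (2 * r0 / s ^ 2)) :=
      mul_le_mul_of_nonneg_left hnorm hc
    have g2 : c * Real.sqrt ((m2 : ℝ) / s ^ 2 + n * (2 * r0 / s ^ 2)) =
        Real.sqrt (c ^ 2 * ((m2 : ℝ) / s ^ 2 + n * (2 * r0 / s ^ 2))) := by
      rw [Real.sqrt_mul (sq_nonneg c), Real.sqrt_sq hc]
    rw [g2] at g1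
    refine g1.trans (Real.sqrt_le_one.2 ?_)
    have g3 : c ^ 2 * ((m2 : ℝ) / s ^ 2 + n * (2 * r0 / s ^ 2)) =
        (((m2 : ℝ) + 2 * n * r0) * c ^ 2) / s ^ 2 := by
      field_simp
    rw [g3, div_le_one (by positivity)]
    exact h7
  refine ⟨pad k (f z / q) A, pad k (f z / q) B, pad_normal k _ A ?_, pad_normal k _ B ?_, ?_,
    Fin.append α (fun _ => f z / q), Fin.append β (fun _ => f z / q),
    pad_charpoly k _ A α ?_, pad_charpoly k _ B β ?_, ?_⟩
  · exact normal_of _ (hU WA h1) α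
  · exact normal_of _ (hU WB h2) β
  · intro heq
    obtain ⟨i, j, hij⟩ := h8
    have g1 : pad k (f z / q) A (Fin.castAdd k i) (Fin.castAdd k j) =
        pad k (f z / q) B (Fin.castAdd k i) (Fin.castAdd k j) := by rw [heq]
    have g2 : ∀ X : Matrix (Fin n) (Fin n) ℂ,
        pad k (f z / q) X (Fin.castAdd k i) (Fin.castAdd k j) = X i j := by
      intro X
      simp [pad]
    rw [g2, g2] at g1
    have g3 : (A - B) i j = 0 := by rw [Matrix.sub_apply, g1, sub_self]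
    rw [hT, Matrix.smul_apply, Matrix.map_apply, smul_eq_mul] at g3
    have hNc : (N : ℂ) ≠ 0 := by exact_mod_cast hN.ne'
    have hqc : (q : ℂ) ≠ 0 := by exact_mod_cast hq.ne'
    rcases mul_eq_zero.1 g3 with h | h
    · exact inv_ne_zero (mul_ne_zero hNc hqc) h
    · exact hij (GaussianInt.toComplex_eq_zero.1 h)
  · exact charpoly_of _ (hU WA h1) α
  · exact charpoly_of _ (hU WB h2) β
  · have hdist : ∀ x y : GaussianInt, ((q ^ 2 : ℕ) : ℤ) ≤ (x - y).norm →
        1 ≤ ‖f x / q - f y / q‖ := by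
      intro x y hxy
      rw [← sub_div, ← map_sub, norm_div, Complex.norm_natCast, le_div_iff₀ hqR, one_mul]
      have g1 : ((q : ℝ)) ^ 2 ≤ ‖f (x - y)‖ ^ 2 := by
        rw [← Complex.normSq_eq_norm_sq, hf, ← GaussianInt.intCast_real_norm]
        exact_mod_cast hxy
      exact (pow_le_pow_iff_left₀ hqR.le (norm_nonneg _) two_ne_zero).1 g1
    have g5 := match_of k α β (f z / q) KA KB hcard
      (fun i hi j hj => hdist _ _ (h5 i hi j hj)) (fun j hj => hdist _ _ (h6 j hj))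
    calc c * ‖pad k (f z / q) A - pad k (f z / q) B‖ ≤ c * ‖A - B‖ :=
          mul_le_mul_of_nonneg_left (pad_norm k _ A B) hc
      _ ≤ 1 := hcn
      _ ≤ _ := g5

end Pool.Agent.Helper773.SpecVar
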