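import Mathlib
import Pool.Agent.Helper773.SpecVar.Sound
set_option autoImplicit false
open Polynomial Matrix
open scoped Matrix.Norms.L2Operator

namespace Pool.Agent.Helper773.SpecVar

theorem sum_normSq_mulVec {n : ℕ} (W : Matrix (Fin n) (Fin n) ℂ) (hW : Wᴴ * W = 1)
    (y : Fin n → ℂ) : ∑ i, ‖(W *ᵥ y) i‖ ^ 2 = ∑ i, ‖y i‖ ^ 2 := by
  have h1 : ∀ M : Matrix (Fin n) (Fin n) ℂ,
      star y ⬝ᵥ ((Mᴴ * M) *ᵥ y) = ((∑ i, ‖(M *ᵥ y) i‖ ^ 2 : ℝ) : ℂ) := by
    intro M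
    rw [← Matrix.mulVec_mulVec, Matrix.dotProduct_mulVec, ← Matrix.star_mulVec]
    simp only [dotProduct, Pi.star_apply]
    push_cast
    apply Finset.sum_congr rfl
    intro i _
    rw [RCLike.star_def, Complex.conj_mul']
  have h2 := h1 W
  have h3 := h1 1
  rw [hW] at h2
  rw [conjTranspose_one, Matrix.mul_one] at h3
  rw [h3] at h2
  have h4 := Complex.ofReal_injective h2
  rw [← h4]
  simp only [Matrix.one_mulVec]

theorem sum_normSq_le {n : ℕ} (T : Matrix (Fin n) (Fin n) ℂ) (ε : ℝ) (hε : ‖T‖ ≤ ε)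
    (u : Fin n → ℂ) : ∑ i, ‖(T *ᵥ u) i‖ ^ 2 ≤ ε ^ 2 * ∑ i, ‖u i‖ ^ 2 := by
  have h := Matrix.l2_opNorm_mulVec T (WithLp.toLp 2 u)
  have e1 : ‖(WithLp.toLp 2 (T *ᵥ u) : EuclideanSpace ℂ (Fin n))‖ ^ 2 =
      ∑ i, ‖(T *ᵥ u) i‖ ^ 2 := by
    rw [EuclideanSpace.norm_sq_eq]
  have e2 : ‖(WithLp.toLp 2 u : EuclideanSpace ℂ (Fin n))‖ ^ 2 = ∑ i, ‖u i‖ ^ 2 := by
    rw [EuclideanSpace.norm_sq_eq]
  rw [← e1, ← e2, ← mul_pow]
  apply pow_le_pow_left₀ (norm_nonneg _)
  refine le_trans h ?_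
  exact mul_le_mul_of_nonneg_right hε (norm_nonneg _)

theorem key {n : ℕ} (W T : Matrix (Fin n) (Fin n) ℂ) (hW : Wᴴ * W = 1) (α β : Fin n → ℂ)
    (hT : ∀ i j, T i j = (α i - β j) * W i j) (ε : ℝ) (hε : ‖T‖ ≤ ε) (I J : Finset (Fin n))
    (m : ℕ) (hIm : I.card ≤ m) (hcard : n + 1 ≤ I.card + J.card)
    (h : ∀ i ∈ I, ∀ j ∈ J, (m : ℝ) * ε ^ 2 < ‖α i - β j‖ ^ 2) : False := by
  classical
  let φ : (↥J → ℂ) →ₗ[ℂ] ({i : Fin n // i ∉ I} → ℂ) :=
    { toFun := fun z i => ∑ j : J, W i.1 j.1 * z j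
      map_add' := by
        intro z z'
        funext i
        simp only [Pi.add_apply, mul_add, Finset.sum_add_distrib]
      map_smul' := by
        intro r z
        funext i
        simp only [Pi.smul_apply, smul_eq_mul, RingHom.id_apply, Finset.mul_sum]
        apply Finset.sum_congr rfl
        intro j _
        ring }
  have hker : LinearMap.ker φ ≠ ⊥ := by
    apply LinearMap.ker_ne_bot_of_finrank_lt
    rw [Module.finrank_pi, Module.finrank_pi, Fintype.card_coe]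
    have h1 : Fintype.card {i : Fin n // i ∉ I} = n - I.card := by
      rw [Fintype.card_subtype_compl, Fintype.card_fin]
      simp
    rw [h1]
    have h2 := Finset.card_le_univ I
    rw [Fintype.card_fin] at h2
    omega
  obtain ⟨z, hz, hz0⟩ := Submodule.exists_mem_ne_zero_of_ne_bot hker
  set y : Fin n → ℂ := fun j => if hj : j ∈ J then z ⟨j, hj⟩ else 0 with hy
  have hyJ : ∀ j, j ∉ J → y j = 0 := by
    intro j hj
    simp only [hy]
    rw [dif_neg hj]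
  have hyz : ∀ j : J, y j.1 = z j := by
    intro j
    simp only [hy]
    rw [dif_pos j.2]
  have hWy : ∀ i, i ∉ I → (W *ᵥ y) i = 0 := by
    intro i hi
    have h1 : φ z ⟨i, hi⟩ = 0 := by
      rw [LinearMap.mem_ker.1 hz]
      rfl
    have h2 : (W *ᵥ y) i = ∑ j : J, W i j.1 * z j := by
      have h3 : (W *ᵥ y) i = ∑ j, W i j * y j := rfl
      rw [h3, ← Finset.sum_subset (Finset.subset_univ J)]
      · rw [← Finset.sum_coe_sort J]
        apply Finset.sum_congr rfl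
        intro j _
        rw [hyz]
      · intro j _ hj
        rw [hyJ j hj, mul_zero]
    rw [h2]
    exact h1
  set N : ℝ := ∑ j, ‖y j‖ ^ 2 with hN
  have hy0 : ∃ j, y j ≠ 0 := by
    by_contra hcon
    push Not at hcon
    apply hz0
    funext j
    rw [← hyz, hcon]
    rfl
  have hNpos : 0 < N := by
    obtain ⟨j, hj⟩ := hy0
    apply Finset.sum_pos' (fun _ _ => by positivity)
    exact ⟨j, Finset.mem_univ _, by positivity⟩
  have hsum : ∑ i ∈ I, ‖(W *ᵥ y) i‖ ^ 2 = N := by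
    rw [hN, ← sum_normSq_mulVec W hW y]
    apply Finset.sum_subset (Finset.subset_univ I)
    intro i _ hi
    rw [hWy i hi, norm_zero]
    norm_num
  have hlt : ∀ i ∈ I, (m : ℝ) * ‖(W *ᵥ y) i‖ ^ 2 < N := by
    intro i hi
    set u : Fin n → ℂ := fun j => y j / (α i - β j) with hu
    have hne : ∀ j ∈ J, α i - β j ≠ 0 := by
      intro j hj h0
      have := h i hi j hj
      rw [h0, norm_zero] at this
      have h5 : (0 : ℝ) ≤ (m : ℝ) * ε ^ 2 := by positivity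
      norm_num at this
      linarith
    have h1 : (W *ᵥ y) i = (T *ᵥ u) i := by
      show ∑ j, W i j * y j = ∑ j, T i j * u j
      apply Finset.sum_congr rfl
      intro j _
      by_cases hj : j ∈ J
      · have := hne j hj
        rw [hT, hu]
        field_simp
      · simp only [hu]
        rw [hyJ j hj]
        simp
    have h2 : ‖(T *ᵥ u) i‖ ^ 2 ≤ ε ^ 2 * ∑ j, ‖u j‖ ^ 2 := by
      refine le_trans ?_ (sum_normSq_le T ε hε u)
      exact Finset.single_le_sum (f := fun i => ‖(T *ᵥ u) i‖ ^ 2) (fun _ _ => by positivity)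
        (Finset.mem_univ i)
    rw [h1]
    calc (m : ℝ) * ‖(T *ᵥ u) i‖ ^ 2 ≤ m * (ε ^ 2 * ∑ j, ‖u j‖ ^ 2) := by gcongr
      _ = ∑ j, (m * ε ^ 2) * ‖u j‖ ^ 2 := by rw [← Finset.mul_sum]; ring
      _ < ∑ j, ‖y j‖ ^ 2 := by
          have hterm : ∀ j, (m * ε ^ 2) * ‖u j‖ ^ 2 ≤ ‖y j‖ ^ 2 := by
            intro j
            by_cases hj : j ∈ J
            · have h6 := h i hi j hj
              have h7 : 0 < ‖α i - β j‖ := norm_pos_iff.2 (hne j hj)
              simp only [hu]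
              rw [norm_div, div_pow, ← mul_div_assoc, div_le_iff₀ (by positivity), mul_comm]
              exact mul_le_mul_of_nonneg_left h6.le (by positivity)
            · simp only [hu]
              rw [hyJ j hj]
              simp
          obtain ⟨j, hj⟩ := hy0
          have hjJ : j ∈ J := by
            by_contra hjn
            exact hj (hyJ j hjn)
          refine Finset.sum_lt_sum (fun j _ => hterm j) ⟨j, Finset.mem_univ _, ?_⟩
          have h6 := h i hi j hjJ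
          have h7 : 0 < ‖α i - β j‖ := norm_pos_iff.2 (hne j hjJ)
          have h8 : 0 < ‖y j‖ := norm_pos_iff.2 hj
          simp only [hu]
          rw [norm_div, div_pow, ← mul_div_assoc, div_lt_iff₀ (by positivity), mul_comm]
          exact mul_lt_mul_of_pos_left h6 (by positivity)
      _ = N := rfl
  have hIne : I.Nonempty := by
    by_contra hIe
    rw [Finset.not_nonempty_iff_eq_empty] at hIe
    rw [hIe, Finset.sum_empty] at hsum
    linarith
  have h9 : ∑ i ∈ I, (m : ℝ) * ‖(W *ᵥ y) i‖ ^ 2 < ∑ i ∈ I, N :=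
    Finset.sum_lt_sum_of_nonempty hIne hlt
  rw [← Finset.mul_sum, hsum, Finset.sum_const, nsmul_eq_mul] at h9
  have h10 : (I.card : ℝ) * N ≤ m * N := by
    apply mul_le_mul_of_nonneg_right _ hNpos.le
    exact_mod_cast hIm
  linarith

theorem norm_le_one_of {n : ℕ} (X : Matrix (Fin n) (Fin n) ℂ) (hX : Xᴴ * X = 1) : ‖X‖ ≤ 1 := by
  have h1 := Matrix.l2_opNorm_conjTranspose_mul_self X
  rw [hX] at h1
  have h2 : ‖(1 : Matrix (Fin n) (Fin n) ℂ)‖ ≤ 1 := by
    rw [← diagonal_one, Matrix.l2_opNorm_diagonal]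
    exact (pi_norm_le_iff_of_nonneg zero_le_one).2 fun i => by simp
  rw [h1] at h2
  nlinarith [norm_nonneg X]

theorem norm_conj_le {n : ℕ} (U V X : Matrix (Fin n) (Fin n) ℂ) (hU : Uᴴ * U = 1)
    (hV : Vᴴ * V = 1) (ε : ℝ) (hX : ‖X‖ ≤ ε) : ‖Uᴴ * X * V‖ ≤ ε := by
  have hε0 : 0 ≤ ε := (norm_nonneg _).trans hX
  have h1 : ‖Uᴴ‖ ≤ 1 := by
    rw [Matrix.l2_opNorm_conjTranspose]
    exact norm_le_one_of U hU
  have h2 := norm_le_one_of V hV
  have h3 : ‖Uᴴ * X * V‖ ≤ ‖Uᴴ * X‖ * ‖V‖ := Matrix.l2_opNorm_mul _ _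
  have h4 : ‖Uᴴ * X‖ ≤ ‖Uᴴ‖ * ‖X‖ := Matrix.l2_opNorm_mul _ _
  have h5 : ‖Uᴴ‖ * ‖X‖ ≤ 1 * ε := mul_le_mul h1 hX (norm_nonneg _) zero_le_one
  have h6 : ‖Uᴴ * X‖ * ‖V‖ ≤ (1 * ε) * 1 :=
    mul_le_mul (h4.trans h5) h2 (norm_nonneg _) (by positivity)
  linarith

theorem conj_eq {n : ℕ} (U V : Matrix (Fin n) (Fin n) ℂ) (hU : Uᴴ * U = 1)
    (hV : Vᴴ * V = 1) (α β : Fin n → ℂ) :
    Uᴴ * (U * diagonal α * Uᴴ - V * diagonal β * Vᴴ) * V =
      diagonal α * (Uᴴ * V) - (Uᴴ * V) * diagonal β := by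
  rw [Matrix.mul_sub, Matrix.sub_mul]
  congr 1
  · calc Uᴴ * (U * diagonal α * Uᴴ) * V = (Uᴴ * U) * diagonal α * (Uᴴ * V) := by
          simp only [Matrix.mul_assoc]
      _ = _ := by rw [hU, Matrix.one_mul]
  · calc Uᴴ * (V * diagonal β * Vᴴ) * V = (Uᴴ * V) * diagonal β * (Vᴴ * V) := by
          simp only [Matrix.mul_assoc]
      _ = _ := by rw [hV, Matrix.mul_one]

theorem gen {n : ℕ} (m : ℕ) (U V : Matrix (Fin n) (Fin n) ℂ) (α β : Fin n → ℂ) (hU : Uᴴ * U = 1)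
    (hV : Vᴴ * V = 1) (ε : ℝ) (hε0 : 0 ≤ ε)
    (hle : ‖U * diagonal α * Uᴴ - V * diagonal β * Vᴴ‖ ≤ ε) (I J : Finset (Fin n))
    (hI : I.card ≤ m) (hc : n + 1 ≤ I.card + J.card)
    (h : ∀ i ∈ I, ∀ j ∈ J, Real.sqrt (m : ℝ) * ε < ‖α i - β j‖) : False := by
  have hU' : U * Uᴴ = 1 := mul_eq_one_comm.1 hU
  have hW : (Uᴴ * V)ᴴ * (Uᴴ * V) = 1 := by
    rw [conjTranspose_mul, conjTranspose_conjTranspose, Matrix.mul_assoc, ← Matrix.mul_assoc U,
      hU', Matrix.one_mul, hV]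
  have hent : ∀ i j, (Uᴴ * (U * diagonal α * Uᴴ - V * diagonal β * Vᴴ) * V) i j =
      (α i - β j) * (Uᴴ * V) i j := by
    intro i j
    rw [conj_eq U V hU hV, Matrix.sub_apply, Matrix.diagonal_mul, Matrix.mul_diagonal]
    ring
  refine key (Uᴴ * V) _ hW α β hent ε (norm_conj_le U V _ hU hV ε hle) I J m hI hc ?_
  intro i hi j hj
  have h1 := h i hi j hj
  have h2 : (Real.sqrt (m : ℝ) * ε) ^ 2 < ‖α i - β j‖ ^ 2 :=
    pow_lt_pow_left₀ h1 (by positivity) two_ne_zero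
  rwa [mul_pow, Real.sq_sqrt (Nat.cast_nonneg m)] at h2

theorem upper_aux {n : ℕ} (U V : Matrix (Fin n) (Fin n) ℂ) (hU : Uᴴ * U = 1) (hV : Vᴴ * V = 1)
    (α β : Fin n → ℂ) (ε : ℝ) (hε0 : 0 ≤ ε)
    (hle : ‖U * diagonal α * Uᴴ - V * diagonal β * Vᴴ‖ ≤ ε) (m : ℕ) (hm : m = (n + 1) / 2) :
    ∃ σ : Equiv.Perm (Fin n), ∀ k, ‖α k - β (σ k)‖ ≤ Real.sqrt (m : ℝ) * ε := by
  classical
  have hle' : ‖V * diagonal β * Vᴴ - U * diagonal α * Uᴴ‖ ≤ ε := by rwa [norm_sub_rev]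
  set t : Fin n → Finset (Fin n) := fun i =>
    Finset.univ.filter fun j => ‖α i - β j‖ ≤ Real.sqrt (m : ℝ) * ε with ht
  have hall : ∀ s : Finset (Fin n), s.card ≤ (s.biUnion t).card := by
    intro s
    by_contra hcon
    push Not at hcon
    set J := (s.biUnion t)ᶜ with hJ
    have hJc : J.card = n - (s.biUnion t).card := by
      rw [hJ, Finset.card_compl, Fintype.card_fin]
    have hle1 : (s.biUnion t).card ≤ n := by
      have := Finset.card_le_univ (s.biUnion t)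
      rwa [Fintype.card_fin] at this
    have hsn : s.card ≤ n := by
      have := Finset.card_le_univ s
      rwa [Fintype.card_fin] at this
    have hfar : ∀ i ∈ s, ∀ j ∈ J, Real.sqrt (m : ℝ) * ε < ‖α i - β j‖ := by
      intro i hi j hj
      rw [hJ, Finset.mem_compl, Finset.mem_biUnion] at hj
      push Not at hj
      have := hj i hi
      simp only [ht, Finset.mem_filter, Finset.mem_univ, true_and, not_le] at this
      exact this
    by_cases hs : s.card ≤ m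
    · exact gen m U V α β hU hV ε hε0 hle s J hs (by omega) hfar
    · by_cases hJm : J.card ≤ m
      · refine gen m V U β α hV hU ε hε0 hle' J s hJm (by omega) ?_
        intro j hj i hi
        rw [norm_sub_rev]
        exact hfar i hi j hj
      · obtain ⟨s', hs's, hs'c⟩ := Finset.exists_subset_card_eq (s := s) (n := m) (by omega)
        refine gen m U V α β hU hV ε hε0 hle s' J hs'c.le (by omega) ?_
        intro i hi j hj
        exact hfar i (hs's hi) j hj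
  obtain ⟨f, hf, hft⟩ := (Finset.all_card_le_biUnion_card_iff_exists_injective t).1 hall
  refine ⟨Equiv.ofBijective f (Finite.injective_iff_bijective.1 hf), ?_⟩
  intro k
  have := hft k
  simp only [ht, Finset.mem_filter, Finset.mem_univ, true_and] at this
  exact this

theorem upper {n : ℕ} (U V : Matrix (Fin n) (Fin n) ℂ) (hU : Uᴴ * U = 1) (hV : Vᴴ * V = 1)
    (α β : Fin n → ℂ) : ∃ σ : Equiv.Perm (Fin n), ∀ k, ‖α k - β (σ k)‖ ≤
      Real.sqrt (((n + 1) / 2 : ℕ) : ℝ) * ‖U * diagonal α * Uᴴ - V * diagonal β * Vᴴ‖ :=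
  upper_aux U V hU hV α β _ (norm_nonneg _) le_rfl _ rfl

end Pool.Agent.Helper773.SpecVar
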