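import Mathlib
import Pool.Agent.Helper773.SpecVar.Defs
import Pool.Agent.Helper773.SpecVar.Upper
set_option autoImplicit false
open Polynomial Matrix Module.End
open scoped Matrix.Norms.L2Operator

namespace Pool.Agent.Helper773.SpecVar

/-- Spectral theorem for normal matrices. -/
theorem exists_diag {n : ℕ} (A : Matrix (Fin n) (Fin n) ℂ) (hA : A * Aᴴ = Aᴴ * A) :
    ∃ (U : Matrix (Fin n) (Fin n) ℂ) (a : Fin n → ℂ), Uᴴ * U = 1 ∧ A = U * diagonal a * Uᴴ := by
  classical
  set H : Matrix (Fin n) (Fin n) ℂ := A + Aᴴ with hH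
  set K : Matrix (Fin n) (Fin n) ℂ := Complex.I • (A - Aᴴ) with hK
  have hHh : H.IsHermitian := by
    rw [Matrix.IsHermitian, hH, conjTranspose_add, conjTranspose_conjTranspose, add_comm]
  have hKh : K.IsHermitian := by
    rw [Matrix.IsHermitian, hK, conjTranspose_smul, conjTranspose_sub,
      conjTranspose_conjTranspose, RCLike.star_def, Complex.conj_I]
    rw [neg_smul, ← smul_neg, neg_sub]
  have hcom : H * K = K * H := by
    rw [hH, hK]
    rw [Matrix.mul_smul, Matrix.smul_mul]
    congr 1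
    rw [Matrix.add_mul, Matrix.mul_sub, Matrix.mul_sub, Matrix.sub_mul, Matrix.mul_add,
      Matrix.mul_add, hA]
    abel
  set h := Matrix.toEuclideanLin H with hh
  set k := Matrix.toEuclideanLin K with hk
  have hs : h.IsSymmetric := Matrix.isSymmetric_toEuclideanLin_iff.2 hHh
  have hks : k.IsSymmetric := Matrix.isSymmetric_toEuclideanLin_iff.2 hKh
  have hc : Commute h k := by
    apply LinearMap.ext
    intro v
    show h (k v) = k (h v)
    rw [hh, hk]
    simp only [Matrix.toLpLin_apply, Matrix.mulVec_mulVec, hcom]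
  have hV0 := LinearMap.IsSymmetric.orthogonalFamily_eigenspace_inf_eigenspace hs hks
  let e : Eigenvalues k × Eigenvalues h → ℂ × ℂ := fun i => (i.1, i.2)
  have he : Function.Injective e := by
    rintro ⟨i, j⟩ ⟨i', j'⟩ hij
    simp only [e, Prod.mk.injEq] at hij
    exact Prod.ext (Subtype.ext hij.1) (Subtype.ext hij.2)
  have hV := hV0.comp he
  have htop : (⨆ i : Eigenvalues k × Eigenvalues h,
      (eigenspace h (e i).2 ⊓ eigenspace k (e i).1)) = ⊤ := by
    rw [eq_top_iff,
      ← LinearMap.IsSymmetric.iSup_iSup_eigenspace_inf_eigenspace_eq_top_of_commute hs hks hc]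
    apply iSup_le
    intro μ
    apply iSup_le
    intro ν
    by_cases h1 : eigenspace h μ = ⊥
    · rw [h1, bot_inf_eq]
      exact bot_le
    · by_cases h2 : eigenspace k ν = ⊥
      · rw [h2, inf_bot_eq]
        exact bot_le
      · exact le_iSup (fun i : Eigenvalues k × Eigenvalues h =>
          (eigenspace h (e i).2 ⊓ eigenspace k (e i).1)) (⟨ν, h2⟩, ⟨μ, h1⟩)
  have hint : DirectSum.IsInternal (fun i : Eigenvalues k × Eigenvalues h =>
      (eigenspace h (e i).2 ⊓ eigenspace k (e i).1)) := by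
    apply hV.isInternal_iff.2
    rw [Submodule.orthogonal_eq_bot_iff]
    exact htop
  have hn : Module.finrank ℂ (EuclideanSpace ℂ (Fin n)) = n := finrank_euclideanSpace_fin
  let b := hint.subordinateOrthonormalBasis hn hV
  have hb : ∀ j, ∃ μ : ℂ, A *ᵥ (b j).ofLp = μ • (b j).ofLp := by
    intro j
    have h1 := hint.subordinateOrthonormalBasis_subordinate hn j hV
    obtain ⟨h2, h3⟩ := Submodule.mem_inf.1 h1
    rw [Module.End.mem_eigenspace_iff] at h2 h3
    have h4 := congrArg WithLp.ofLp h2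
    have h5 := congrArg WithLp.ofLp h3
    set μ := (e (hint.subordinateOrthonormalBasisIndex hn j hV)).2 with hμ
    set ν := (e (hint.subordinateOrthonormalBasisIndex hn j hV)).1 with hν
    have h4' : H *ᵥ (b j).ofLp = μ • (b j).ofLp := h4
    have h5' : K *ᵥ (b j).ofLp = ν • (b j).ofLp := h5
    refine ⟨(μ - Complex.I * ν) / 2, ?_⟩
    have h6 : A = (2 : ℂ)⁻¹ • (H - Complex.I • K) := by
      rw [hH, hK, smul_smul, Complex.I_mul_I]
      ext i j
      simp only [Matrix.smul_apply, Matrix.sub_apply, Matrix.add_apply, smul_eq_mul]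
      ring
    rw [h6, Matrix.smul_mulVec, Matrix.sub_mulVec, Matrix.smul_mulVec, h4', h5']
    ext i
    simp only [Pi.smul_apply, Pi.sub_apply, smul_eq_mul]
    ring
  choose a ha using hb
  let U : Matrix (Fin n) (Fin n) ℂ := fun i j => (b j).ofLp i
  have hU : Uᴴ * U = 1 := by
    ext i j
    have h1 := orthonormal_iff_ite.1 b.orthonormal i j
    rw [Matrix.mul_apply, Matrix.one_apply]
    rw [← h1, PiLp.inner_apply]
    apply Finset.sum_congr rfl
    intro t _
    show star ((b i).ofLp t) * (b j).ofLp t = _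
    rw [RCLike.inner_apply, RCLike.star_def]
    ring
  refine ⟨U, a, hU, ?_⟩
  have hAU : A * U = U * diagonal a := by
    ext i j
    rw [Matrix.mul_diagonal]
    have h1 := congrFun (ha j) i
    rw [Pi.smul_apply, smul_eq_mul] at h1
    have h2 : (A * U) i j = (A *ᵥ (b j).ofLp) i := rfl
    rw [h2, h1]
    show a j * (b j).ofLp i = (b j).ofLp i * a j
    ring
  rw [← hAU, Matrix.mul_assoc, mul_eq_one_comm.1 hU, Matrix.mul_one]

theorem perm_of_prod {n : ℕ} (α β : Fin n → ℂ)
    (h : ∏ k, (X - C (α k)) = ∏ k, (X - C (β k))) :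
    ∃ τ : Equiv.Perm (Fin n), ∀ k, β (τ k) = α k := by
  classical
  have h1 : ∀ γ : Fin n → ℂ, (∏ k, (X - C (γ k))).roots = Multiset.map γ Finset.univ.val := by
    intro γ
    have h2 : (∏ k, (X - C (γ k))) =
        ((Multiset.map γ Finset.univ.val).map fun a => X - C a).prod := by
      rw [Multiset.map_map]
      rfl
    rw [h2, Polynomial.roots_multiset_prod_X_sub_C]
  have h2 : Multiset.map α Finset.univ.val = Multiset.map β Finset.univ.val := by
    rw [← h1 α, ← h1 β, h]
  have h3 : ∀ z : ℂ, Nonempty ({k // α k = z} ≃ {k // β k = z}) := by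
    intro z
    have h4 := congrArg (Multiset.count z) h2
    rw [Multiset.count_map, Multiset.count_map] at h4
    refine ⟨Fintype.equivOfCardEq ?_⟩
    rw [Fintype.card_subtype, Fintype.card_subtype]
    have h5 : ∀ γ : Fin n → ℂ, (Finset.univ.filter fun k => γ k = z).card =
        (Multiset.filter (fun k => z = γ k) Finset.univ.val).card := by
      intro γ
      rw [Finset.card_def, Finset.filter_val]
      congr 1
      apply Multiset.filter_congr
      intro k _
      exact eq_comm
    rw [h5, h5, h4]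
  exact ⟨Equiv.ofFiberEquiv fun z => Classical.choice (h3 z), fun k =>
    Equiv.ofFiberEquiv_map _ k⟩

/-- The spectral distance of normal `n × n` matrices is at most `√⌊(n+1)/2⌋ ‖A - B‖`. -/
theorem upper_normal {n : ℕ} (A B : Matrix (Fin n) (Fin n) ℂ) (hA : A * Aᴴ = Aᴴ * A)
    (hB : B * Bᴴ = Bᴴ * B) (α β : Fin n → ℂ) (hα : IsEigList A α) (hβ : IsEigList B β) :
    spDist α β ≤ Real.sqrt (((n + 1) / 2 : ℕ) : ℝ) * ‖A - B‖ := by
  obtain ⟨U, a, hU, rfl⟩ := exists_diag A hA
  obtain ⟨V, b, hV, rfl⟩ := exists_diag B hB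
  obtain ⟨σ, hσ⟩ := upper U V hU hV a b
  have e1 : ∏ k, (X - C (α k)) = ∏ k, (X - C (a k)) := by
    rw [← hα, charpoly_of U (mul_eq_one_comm.1 hU) a]
  have e2 : ∏ k, (X - C (b k)) = ∏ k, (X - C (β k)) := by
    rw [← hβ, charpoly_of V (mul_eq_one_comm.1 hV) b]
  obtain ⟨τ, hτ⟩ := perm_of_prod α a e1
  obtain ⟨ρ, hρ⟩ := perm_of_prod b β e2
  have hfin : BddBelow (Set.range fun σ : Equiv.Perm (Fin n) => ⨆ k : Fin n, ‖α k - β (σ k)‖) :=
    (Set.finite_range _).bddBelow
  refine (ciInf_le hfin ((τ.trans σ).trans ρ)).trans ?_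
  apply Real.iSup_le
  · intro k
    have h1 := hσ (τ k)
    rw [hτ k, ← hρ (σ (τ k))] at h1
    exact h1
  · positivity

end Pool.Agent.Helper773.SpecVar
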